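import Pool.Agent.Helper501.Haus.Main

/-!
The set of Hausdorff dimensions of closures of self-similar groups, and of contracting self-similar
groups, acting on the tree of words over `d` letters, for every `d ≥ 2`. All definitions used in the
statement are in `Pool.Agent.Helper501.Haus.Defs`.
-/

namespace Pool.Agent.Results.MP_99bc98_al.SelfSimilarSpectrum

open Equiv Pool.Agent.Helper501.Haus

/-- Sanity check: the number of restrictions of tree automorphisms to the first `n` levels. -/
theorem levelCard_treeAut (d : ℕ) (hd : 2 ≤ d) (n : ℕ) :
    levelCard n (treeAut d) = d.factorial ^ ((d ^ n - 1) / (d - 1)) := by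
  haveI : Nonempty (Fin d) := ⟨⟨0, by omega⟩⟩
  rw [treeAut_eq, levelCard_map hd, ← Nat.geomSum_eq hd]
  induction n with
  | zero => rw [cc_zero]; simp
  | succ n ih =>
    rw [cc_succ, ih, Finset.sum_range_succ, pow_add, mul_comm]
    congr 1
    rw [KK_top, Subgroup.card_top, Nat.card_eq_fintype_card, Fintype.card_fun, Fintype.card_perm, card_Wd,
      Fintype.card_fin]

/-- Sanity check: a self-similar group acts by automorphisms of the tree. -/
theorem mem_treeAut {d : ℕ} {G : Subgroup (Perm (List (Fin d)))} (hG : SelfSimilar G)
    {g : Perm (List (Fin d))} (hg : g ∈ G) : g ∈ treeAut d := hG.sub hg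

/-- For every `d ≥ 2`, the Hausdorff dimensions of the closures of the self-similar groups over `d`
letters, and of the contracting ones, form the same set `Spectrum d`. -/
theorem result (d : ℕ) (hd : 2 ≤ d) :
    {x : ℝ | ∃ G : Subgroup (Perm (List (Fin d))), SelfSimilar G ∧ x = hdim (treeClosure G)} = Spectrum d ∧
    {x : ℝ | ∃ G : Subgroup (Perm (List (Fin d))), SelfSimilar G ∧ Contracting G ∧
      x = hdim (treeClosure G)} = Spectrum d :=
  spectrum_main d hd

end Pool.Agent.Results.MP_99bc98_al.SelfSimilarSpectrum
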